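import Pool.Agent.H19.KL.Stmts

/-!
# Module NGP: the Poincare inequality for smooth potentials
-/

set_option autoImplicit false

open MeasureTheory Set
open scoped ContDiff

namespace Pool.Agent.H19.KL

open Pool.Agent.H84 Pool.Agent.H84.Sym Pool.Agent.H84.Sym.C29 Pool.Agent.H84.Sym.S29

private theorem ngp_mg {E : Type} [NormedAddCommGroup E] [InnerProductSpace ℝ E]
    [FiniteDimensional ℝ E] [MeasurableSpace E] [BorelSpace E] {W : E → ℝ} {τ C' : ℝ}
    (hW : Pot W τ C') : GPC (mu W) (1 / τ) := by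
  refine gpc_of_coer (stdOrthonormalBasis ℝ E) hW hW.pos fun u hu => ?_
  have h1 := bochner (stdOrthonormalBasis ℝ E) (q := fun _ => τ) hW.smooth continuous_const
    hW.hess (hu.1.of_le (by norm_cast)) hu.2
  rw [integral_const_mul] at h1
  have h2 : 0 ≤ ∫ x, (∑ i, ‖fderiv ℝ (D (stdOrthonormalBasis ℝ E i) u) x‖ ^ 2) ∂(mu W) :=
    integral_nonneg fun x => Finset.sum_nonneg fun i _ => sq_nonneg _
  exact (le_add_of_nonneg_left h2).trans h1

/-- NGP: the Poincare inequality for smooth potentials -/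
theorem ngp_thm (E : Type) [NormedAddCommGroup E] [InnerProductSpace ℝ E]
    [FiniteDimensional ℝ E] [MeasurableSpace E] [BorelSpace E] (h1 : STPStmt E) : NGPStmt E := by
  intro ι _ v U t C c D X β Γ B m hn hU hP hd
  have hK1 : 0 < K1 Γ B := by
    have h2 := hd.Γ_one
    have h3 := hd.B_one
    unfold K1
    nlinarith
  set T := max (K1 Γ B) (4 * K2 Γ B m) with hT
  have hT0 : 0 < T := lt_of_lt_of_le hK1 (le_max_left _ _)
  have ht := hU.pos
  have key : ∀ n : ℕ, GPC (mu U) (max T ((3 / 4) ^ n / t)) := by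
    intro n
    induction n with
    | zero =>
      refine Pool.Agent.H84.Sym.P6.gpc_mono (ngp_mg hU) ?_
      rw [pow_zero]
      exact le_max_right _ _
    | succ n ih =>
      have h2 := h1 ι v U t C c D X β Γ B m (max T ((3 / 4) ^ n / t)) hn hU hP hd
        ((le_max_left _ _).trans (le_max_left _ _)) ih
      refine Pool.Agent.H84.Sym.P6.gpc_mono h2 ?_
      have h3 : 4 * K2 Γ B m ≤ T := le_max_right _ _
      have h4 : (3 / 4 : ℝ) ^ (n + 1) / t = 3 / 4 * ((3 / 4) ^ n / t) := by
        rw [pow_succ]; ring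
      rw [h4]
      rcases le_total T ((3 / 4) ^ n / t) with h | h
      · rw [max_eq_right h]
        refine le_trans ?_ (le_max_right _ _)
        linarith
      · rw [max_eq_left h]
        refine le_trans ?_ (le_max_left _ _)
        linarith
  obtain ⟨n, hn⟩ := exists_pow_lt_of_lt_one (mul_pos hT0 ht) (by norm_num : (3 / 4 : ℝ) < 1)
  have h5 : max T ((3 / 4) ^ n / t) = T := by
    apply max_eq_left
    rw [div_le_iff₀ ht]
    exact hn.le
  have h6 := key n
  rwa [h5] at h6

end Pool.Agent.H19.KL
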